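import Pool.Agent.Helper76.GT.St

/-! # Project GT, module WHI (whitening) -/

set_option autoImplicit false

namespace Pool.Agent.Helper62.GT

open Pool.Agent.Helper76.GT Filter
open scoped MatrixOrder

/-- **WHI**. -/
theorem pWHI : WHI := by
  intro N P hP
  obtain ⟨B, hB⟩ := CStarAlgebra.nonneg_iff_eq_star_mul_self.mp hP.posSemidef.nonneg
  have hB' : P = B.transpose * B := by
    rw [hB, Matrix.star_eq_conjTranspose, Matrix.conjTranspose_eq_transpose_of_trivial]
  have hdet : IsUnit B.det := by
    have h1 : P.det ≠ 0 := hP.det_pos.ne'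
    rw [hB', Matrix.det_mul] at h1
    exact isUnit_iff_ne_zero.2 (right_ne_zero_of_mul h1)
  refine ⟨(B⁻¹).transpose, ?_⟩
  rw [Matrix.transpose_transpose, hB', ← Matrix.mul_assoc, ← Matrix.transpose_mul,
    Matrix.mul_nonsing_inv B hdet, Matrix.transpose_one, Matrix.one_mul,
    Matrix.mul_nonsing_inv B hdet]

end Pool.Agent.Helper62.GT
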